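import Pool.Agent.MP_826def_gt.BL.Spec

/-! The total characteristic class and its formal properties. -/

namespace Pool.Agent.MP_826def_gt.BL

open Set Topology Pool.Agent.MP_826def_gt.MU

noncomputable section

namespace Cb

lemma bq_eq {A : Type 1} [CommRing A] (x : A) (N : ℕ) (hx : x ^ N = 0) :
    bq x = 1 + ∑ n ∈ Finset.range N, MvPolynomial.X n * MvPolynomial.C (x ^ (n + 1)) := by
  unfold bq
  congr 1
  apply finsum_eq_sum_of_support_subset
  intro m h
  simp only [Function.mem_support, ne_eq] at h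
  simp only [Finset.coe_range, Set.mem_Iio]
  by_contra hm
  exact h (by rw [pow_eq_zero_of_le (by omega : N ≤ m + 1) hx]; simp)

lemma bq_zero {A : Type 1} [CommRing A] : bq (0 : A) = 1 := by
  rw [bq_eq 0 1 (pow_one _)]
  simp

section bun

variable {X X' : Type} [TopologicalSpace X] [TopologicalSpace X']

lemma split_pull {ξ : Bun X} {k : ℕ} {L : Fin k → Bun X} (h : ξ.Split L) (f : C(X', X)) :
    (ξ.pull f).Split fun i => (L i).pull f := by
  obtain ⟨u, v, H⟩ := h
  exact ⟨fun i => (u i).comp f, fun i => (v i).comp f, fun x => H (f x)⟩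

lemma iso_pull {ξ η : Bun X} (h : ξ.Iso η) (f : C(X', X)) : (ξ.pull f).Iso (η.pull f) := by
  obtain ⟨u, v, H⟩ := h
  exact ⟨u.comp f, v.comp f, fun x => H (f x)⟩

lemma iso_symm {ξ η : Bun X} (h : ξ.Iso η) : η.Iso ξ := by
  obtain ⟨u, v, H⟩ := h
  exact ⟨v, u, fun x => (H x).symm⟩

lemma split_self (L : Bun X) : L.Split fun _ : Fin 1 => L :=
  ⟨fun _ => L.p, fun _ => L.p, fun x => ⟨fun _ => L.idem x,
    fun i j hij => (hij (Subsingleton.elim i j)).elim, by
      rw [Fin.sum_univ_one]; exact L.idem x⟩⟩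

end bun

variable [Fact Core]

variable {K K' K'' : Type} [TopologicalSpace K] [CompactSpace K] [T2Space K] [TopologicalSpace K']
  [CompactSpace K'] [T2Space K'] [TopologicalSpace K''] [CompactSpace K''] [T2Space K'']

lemma map_map (f : C(K', K)) (g : C(K'', K')) (c : MvPolynomial ℕ (h K)) :
    MvPolynomial.map (pullR g) (MvPolynomial.map (pullR f) c) =
      MvPolynomial.map (pullR (f.comp g)) c := by
  rw [MvPolynomial.map_map]
  congr 2
  exact RingHom.ext fun x => pull_comp f.continuous.isProperMap g.continuous.isProperMap x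

lemma map_id (c : MvPolynomial ℕ (h K)) :
    MvPolynomial.map (pullR (ContinuousMap.id K)) c = c := by
  have : pullR (ContinuousMap.id K) = RingHom.id (h K) := RingHom.ext fun x => pull_id x
  rw [this, MvPolynomial.map_id]

lemma ext2 (c1 : S_Cb1) (ξ : Bun K) (c c' : MvPolynomial ℕ (h K))
    (H : ∀ (K' : Type) [TopologicalSpace K'] [CompactSpace K'] [T2Space K'] (f : C(K', K))
      (k : ℕ) (L : Fin k → Bun K'), (∀ i, (L i).Rk 1) → (ξ.pull f).Split L →
      MvPolynomial.map (pullR f) c = MvPolynomial.map (pullR f) c') : c = c' := by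
  refine MvPolynomial.ext _ _ fun α => sub_eq_zero.1 ((c1 ξ).2 _ fun K' _ _ _ f k L h1 h2 => ?_)
  rw [map_sub, ← MvPolynomial.coeff_map, ← MvPolynomial.coeff_map, H K' f k L h1 h2, sub_self]

lemma uniq (c1 : S_Cb1) {ξ : Bun K} {c c' : MvPolynomial ℕ (h K)} (hc : IsCb ξ c)
    (hc' : IsCb ξ c') : c = c' :=
  ext2 c1 ξ c c' fun K' _ _ _ f k L h1 h2 => (hc K' f k L h1 h2).trans (hc' K' f k L h1 h2).symm

lemma deg_mul (A : Api) {d e : ℤ} {a b : h K} (ha : IsDeg d a) (hb : IsDeg e b) :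
    IsDeg (d + e) (a * b) := by
  have := A.deg.prod (ContinuousMap.id K) (ContinuousMap.id K) d e a ha b
  rw [IsDeg, mul_def, this, hb]

lemma deg_pow (A : Api) {a : h K} (ha : IsDeg 1 a) : ∀ n : ℕ, IsDeg n (a ^ n)
  | 0 => by rw [pow_zero]; exact A.deg.one K
  | n + 1 => by
    rw [pow_succ, Nat.cast_succ]
    exact deg_mul A (deg_pow A ha n) ha

/-- The coefficients have the degree given by the weight. -/
def Hom (c : MvPolynomial ℕ (h K)) : Prop :=
  ∀ α : ℕ →₀ ℕ, IsDeg (Finsupp.weight (fun n => n + 1) α : ℕ) (c.coeff α)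

lemma hom_mono {β : ℕ →₀ ℕ} {a : h K} (ha : IsDeg (Finsupp.weight (fun n => n + 1) β : ℕ) a) :
    Hom (MvPolynomial.monomial β a) := fun α => by
  classical
  rw [MvPolynomial.coeff_monomial]
  split_ifs with e
  · exact e ▸ ha
  · exact map_zero _

lemma hom_one (A : Api) : Hom (1 : MvPolynomial ℕ (h K)) :=
  hom_mono (β := 0) (by rw [map_zero]; exact A.deg.one K)

lemma hom_add {c c' : MvPolynomial ℕ (h K)} (hc : Hom c) (hc' : Hom c') : Hom (c + c') :=
  fun α => by
    rw [IsDeg, MvPolynomial.coeff_add, map_add, hc α, hc' α]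

lemma hom_sum {ι : Type} (s : Finset ι) (c : ι → MvPolynomial ℕ (h K)) (hc : ∀ i, Hom (c i)) :
    Hom (∑ i ∈ s, c i) := fun α => by
  rw [IsDeg, MvPolynomial.coeff_sum, map_sum]
  exact Finset.sum_congr rfl fun i _ => hc i α

lemma hom_mul (A : Api) {c c' : MvPolynomial ℕ (h K)} (hc : Hom c) (hc' : Hom c') :
    Hom (c * c') := fun α => by
  classical
  rw [IsDeg, MvPolynomial.coeff_mul, map_sum]
  refine Finset.sum_congr rfl fun q hq => ?_
  have := deg_mul A (hc q.1) (hc' q.2)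
  rw [← Nat.cast_add, ← map_add, Finset.HasAntidiagonal.mem_antidiagonal.1 hq] at this
  exact this

lemma hom_prod (A : Api) {ι : Type} (s : Finset ι) (c : ι → MvPolynomial ℕ (h K))
    (hc : ∀ i, Hom (c i)) : Hom (∏ i ∈ s, c i) :=
  Finset.prod_induction c Hom (fun _ _ => hom_mul A) (hom_one A) fun i _ => hc i

lemma hom_bq (A : Api) {x : h K} (hx : IsDeg 1 x) (hn : IsNilpotent x) : Hom (bq x) := by
  obtain ⟨N, hN⟩ := hn
  rw [bq_eq x N hN]
  refine hom_add (hom_one A) (hom_sum _ _ fun n => ?_)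
  rw [mul_comm, MvPolynomial.C_mul_X_eq_monomial]
  refine hom_mono ?_
  have : Finsupp.weight (fun n : ℕ => n + 1) (Finsupp.single n 1) = n + 1 := by
    rw [Finsupp.weight_single, one_smul]
  rw [this]
  exact deg_pow A hx (n + 1)

end Cb

open Cb

variable [Fact Core]

theorem cb (A : Api) (f : S_FGL) (c1 : S_Cb1) : S_Cb := by
  obtain ⟨a, ha⟩ := f
  let c : CbT := fun {K} _ _ _ ξ => (c1 ξ).1.choose
  have hc : ∀ {K : Type} [TopologicalSpace K] [CompactSpace K] [T2Space K] (ξ : Bun K),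
      IsCb ξ (c ξ) := fun ξ => (c1 ξ).1.choose_spec
  refine ⟨c, ?_, ?_, ?_, ?_, ?_, ?_⟩
  · intro K K' _ _ _ _ _ _ ξ f
    refine uniq c1 (fun K'' _ _ _ g k L h1 h2 => ?_) (hc _)
    rw [Cb.map_map]
    exact hc ξ K'' (f.comp g) k L h1 h2
  · intro K _ _ _ ξ η e
    exact uniq c1 (fun K' _ _ _ f k L h1 h2 =>
      hc ξ K' f k L h1 (A.bun.split_iso _ _ L (iso_pull (iso_symm e) f) h2)) (hc η)
  · intro K _ _ _ ξ η
    refine ext2 c1 ξ _ _ fun K' _ _ _ f k L h1 h2 => ?_
    refine ext2 c1 (η.pull f) _ _ fun K'' _ _ _ g l M h3 h4 => ?_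
    have h5 : (ξ.pull (f.comp g)).Split fun i => (L i).pull g := split_pull h2 g
    have h6 : (η.pull (f.comp g)).Split M := h4
    have h7 : ∀ i, ((L i).pull g).Rk 1 := fun i x => h1 i (g x)
    have h8 : ∀ i, (Fin.append (fun i => (L i).pull g) M i).Rk 1 := fun i => by
      refine Fin.addCases (fun i => ?_) (fun i => ?_) i
      · rw [Fin.append_left]; exact h7 i
      · rw [Fin.append_right]; exact h3 i
    rw [Cb.map_map, Cb.map_map, map_mul, hc ξ K'' (f.comp g) k _ h7 h5,
      hc η K'' (f.comp g) l M h3 h6,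
      hc (ξ.sum η) K'' (f.comp g) (k + l) _ h8 (A.bun.split_sum _ _ _ _ h5 h6),
      Fin.prod_univ_add]
    simp only [Fin.append_left, Fin.append_right]
  · intro K _ _ _ E
    have h1 : (Bun.triv K FD.C).Rk 1 := by
      have := A.bun.rk_triv K FD.C
      rwa [show FD.C.dim = 1 from Module.finrank_self ℂ] at this
    have h2 : eu (Bun.triv K FD.C) = 0 := by
      have := A.eul.nz (ι := Unit) (fun _ => Bun.triv K FD.C)
        (fun _ => ContinuousMap.const K (1 : ℂ)) (fun _ _ => rfl) fun _ => ⟨(), one_ne_zero⟩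
      rwa [Fintype.prod_unique] at this
    have := hc (Bun.triv K E) K (ContinuousMap.id K) E.dim _ (fun _ => h1) (A.bun.split_triv K E)
    rw [Cb.map_id] at this
    rw [h2, bq_zero, Finset.prod_const_one] at this
    exact this
  · intro K _ _ _ L hL
    have := hc L K (ContinuousMap.id K) 1 _ (fun _ => hL) (split_self L)
    rwa [Cb.map_id, Fin.prod_univ_one] at this
  · intro K _ _ _ ξ α
    refine (sub_eq_zero.1 ((c1 ξ).2 _ fun K' _ _ _ f k L h1 h2 => ?_))
    have h3 := hom_prod A Finset.univ (fun i => bq (eu (L i))) (fun i =>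
      hom_bq A (by exact_mod_cast A.eul.deg (L i) 1 (h1 i)) (ha.nil _ (h1 i))) α
    rw [← hc ξ K' f k L h1 h2, MvPolynomial.coeff_map] at h3
    rw [map_sub, pullR_apply, ← A.deg.pull, ← pullR_apply, h3, sub_self]

end

end Pool.Agent.MP_826def_gt.BL
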