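import Pool.Agent.MP_826def_gt.BL.Spec
import Pool.Agent.MP_826def_gt.BP.Bun3

/-! The multiplicative characteristic class in constant rank, as a resultant. -/

namespace Pool.Agent.MP_826def_gt.BL

open Set Topology Pool.Agent.MP_826def_gt.MU Polynomial

noncomputable section

theorem bq_eq {A : Type 1} [CommRing A] {x : A} {D : ℕ} (h : x ^ D = 0) :
    bq x = 1 + ∑ n ∈ Finset.range D, MvPolynomial.X n * MvPolynomial.C (x ^ (n + 1)) := by
  unfold bq
  congr 1
  refine finsum_eq_sum_of_support_subset _ fun m hm => ?_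
  by_contra hlt
  simp only [Finset.coe_range, Set.mem_Iio, not_lt] at hlt
  apply hm
  show MvPolynomial.X m * MvPolynomial.C (x ^ (m + 1)) = (0 : MvPolynomial ℕ A)
  rw [pow_eq_zero_of_le (by omega : D ≤ m + 1) h]
  simp

/-- The truncated series. -/
def tq (A : Type 1) [CommRing A] (D : ℕ) : (MvPolynomial ℕ A)[X] :=
  1 + ∑ n ∈ Finset.range D, C (MvPolynomial.X n) * X ^ (n + 1)

/-- The polynomial with the coefficients `± c i`. -/
def chi {A : Type 1} [CommRing A] (c : ℕ → A) (k : ℕ) : (MvPolynomial ℕ A)[X] :=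
  ∑ j ∈ Finset.range (k + 1), (-1) ^ j * (C (MvPolynomial.C (c j)) * X ^ (k - j))

/-- The resultant. -/
def rs {A : Type 1} [CommRing A] (c : ℕ → A) (k D : ℕ) : MvPolynomial ℕ A :=
  resultant (chi c k) (tq A D) k D

theorem tq_deg (A : Type 1) [CommRing A] (D : ℕ) : (tq A D).natDegree ≤ D := by
  refine natDegree_add_le_of_degree_le (by simp) (natDegree_sum_le_of_forall_le _ _ fun n hn => ?_)
  exact (natDegree_C_mul_X_pow_le _ _).trans (Finset.mem_range.1 hn)

theorem map_rs {A B : Type 1} [CommRing A] [CommRing B] (φ : A →+* B) (c : ℕ → A) (k D : ℕ) :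
    MvPolynomial.map φ (rs c k D) = rs (fun j => φ (c j)) k D := by
  rw [rs, ← resultant_map_map, rs]
  congr 1
  · simp [chi, Polynomial.map_sum]
  · simp [tq, Polynomial.map_sum]

theorem rs_split {A : Type 1} [CommRing A] {k D : ℕ} (x : Fin k → A) (hx : ∀ i, x i ^ D = 0) :
    rs (fun j => (Finset.univ.val.map x).esymm j) k D = ∏ i, bq (x i) := by
  nontriviality A
  have e : chi (fun j => (Finset.univ.val.map x).esymm j) k =
      ∏ i, (X - C (MvPolynomial.C (x i) : MvPolynomial ℕ A)) := by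
    have h := congrArg (Polynomial.map (MvPolynomial.C : A →+* MvPolynomial ℕ A))
      (Multiset.prod_X_sub_X_eq_sum_esymm (Finset.univ.val.map x))
    rw [Multiset.map_map, Multiset.card_map, Finset.card_val, Finset.card_fin] at h
    have h2 : (Multiset.map ((fun t => X - C t) ∘ x) Finset.univ.val).prod =
      ∏ i, (X - C (x i)) := rfl
    rw [h2, Polynomial.map_prod, Polynomial.map_sum] at h
    simpa [chi] using h.symm
  have hd : (∏ i, (X - C (MvPolynomial.C (x i) : MvPolynomial ℕ A))).natDegree = k := by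
    rw [natDegree_prod_of_monic _ _ fun i _ => monic_X_sub_C _]
    simp
  have h := resultant_prod_left Finset.univ
    (fun i => X - C (MvPolynomial.C (x i) : MvPolynomial ℕ A)) (tq A D) D (by simp) (tq_deg A D)
  rw [hd] at h
  rw [rs, e, h]
  refine Finset.prod_congr rfl fun i _ => ?_
  rw [natDegree_X_sub_C, resultant_X_sub_C_left _ _ _ (tq_deg A D), bq_eq (hx i), tq]
  simp [eval_finset_sum]

theorem nil_fin {A : Type 1} [CommRing A] {k : ℕ} (x : Fin k → A) (hx : ∀ i, IsNilpotent (x i)) :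
    ∃ D, ∀ D' ≥ D, ∀ i, x i ^ D' = 0 := by
  choose n hn using hx
  exact ⟨∑ i, n i, fun D' h i => pow_eq_zero_of_le
    ((Finset.single_le_sum (fun _ _ => Nat.zero_le _) (Finset.mem_univ i)).trans h) (hn i)⟩

variable [C : Fact Core]

theorem cb0 (A : Api) (f : S_FGL) (s : S_Split) (ch : S_Ch) : S_Cb0 := by
  obtain ⟨a, ha⟩ := f
  obtain ⟨ch, hch⟩ := ch
  intro K _ _ _ ξ k hk
  have key : ∀ (K' : Type) [TopologicalSpace K'] [CompactSpace K'] [T2Space K'] (g : C(K', K))
      (L : Fin k → Bun K'), (∀ i, (L i).Rk 1) → (ξ.pull g).Split L → ∃ D, ∀ D' ≥ D,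
      MvPolynomial.map (pullR g) (rs (ch ξ) k D') = ∏ i, bq (eu (L i)) := by
    intro K' _ _ _ g L h1 hs
    obtain ⟨D, hD⟩ := nil_fin (fun i => eu (L i)) fun i => ha.nil _ (h1 i)
    refine ⟨D, fun D' h => ?_⟩
    rw [map_rs, ← rs_split _ (hD D' h)]
    congr 1
    funext j
    rw [hch.nat ξ k g hk, hch.split _ k L h1 hs]
  obtain ⟨K₀, _, _, _, g₀, L₀, h1, hs, hi, -⟩ := s ξ k hk
  obtain ⟨D₀, h₀⟩ := key K₀ g₀ L₀ h1 hs
  refine ⟨rs (ch ξ) k D₀, fun K' _ _ _ g k' L h1' hs' => ?_⟩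
  rcases isEmpty_or_nonempty K' with hK | ⟨⟨x⟩⟩
  · have : Subsingleton (h K') := ⟨fun x y => (A.fn.empty x).trans (A.fn.empty y).symm⟩
    exact Subsingleton.elim _ _
  obtain rfl : k' = k := (BP.split_rk_one C.out.good2 hs' h1' x).symm.trans (hk (g x))
  obtain ⟨D, hD⟩ := key K' g L h1' hs'
  have e : rs (ch ξ) k' D₀ = rs (ch ξ) k' (max D D₀) :=
    MvPolynomial.map_injective (pullR g₀) hi ((h₀ _ le_rfl).trans (h₀ _ (le_max_right _ _)).symm)
  rw [e, hD _ (le_max_left _ _)]

end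

end Pool.Agent.MP_826def_gt.BL
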