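import Pool.Agent.MP_826def_gt.BL.Spec

/-! The multiplicative characteristic class in any rank. -/

namespace Pool.Agent.MP_826def_gt.BL

open Set Topology Filter Pool.Agent.MP_826def_gt.MU

noncomputable section

namespace Cb1

theorem tr_rk {W : FD} {p : W →L[ℂ] W} (hp : p ∘L p = p) :
    LinearMap.trace ℂ W (p : W →ₗ[ℂ] W) = (rk p : ℂ) := by
  have h1 : IsIdempotentElem (p : W →ₗ[ℂ] W) :=
    congrArg (fun q : W →L[ℂ] W => (q : W →ₗ[ℂ] W)) hp
  exact (LinearMap.IsIdempotentElem.isProj_range _ h1).trace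

/-- A sum of `k` line bundles has rank `k`. -/
theorem rk_split {X : Type} [TopologicalSpace X] {ξ : Bun X} {k : ℕ} {L : Fin k → Bun X}
    (h1 : ∀ i, (L i).Rk 1) (hs : ξ.Split L) : ξ.Rk k := by
  intro x
  obtain ⟨u, v, H⟩ := hs
  have e : ((rk (ξ.p x) : ℕ) : ℂ) = (k : ℂ) := by
    rw [← tr_rk (ξ.idem x), ← (H x).2.2, ContinuousLinearMap.toLinearMap_sum, map_sum]
    have : ∀ i, LinearMap.trace ℂ ξ.W ((u i x ∘L v i x : ξ.W →L[ℂ] ξ.W) : ξ.W →ₗ[ℂ] ξ.W) = 1 := by
      intro i
      have e1 := tr_rk ((L i).idem x)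
      rw [h1 i x, Nat.cast_one, ← (H x).1 i] at e1
      exact (LinearMap.trace_comp_comm' (v i x : ξ.W →ₗ[ℂ] (L i).W) (u i x)).trans e1
    rw [Finset.sum_congr rfl fun i _ => this i]
    simp
  exact_mod_cast e

variable [C : Fact Core]

theorem lc_rk {X : Type} [TopologicalSpace X] (ξ : Bun X) :
    IsLocallyConstant fun x => rk (ξ.p x) :=
  (IsLocallyConstant.iff_eventually_eq _).2 fun x =>
    ((ξ.p.continuous.tendsto x).eventually (C.out.good2.rk_near _ (ξ.idem x))).mono
      fun y hy => hy (ξ.idem y)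

end Cb1

variable [C : Fact Core]

theorem cb1 (A : Api) (s : S_Split) (c : S_Clopen) (c0 : S_Cb0) : S_Cb1 := by
  intro K _ _ _ ξ
  have hρ := Cb1.lc_rk ξ
  set ρ : K → ℕ := fun x => rk (ξ.p x) with hρd
  have : ∀ k, CompactSpace {y // ρ y = k} := fun k =>
    isCompact_iff_compactSpace.1 (hρ.isClosed_fiber k).isCompact
  have hk : ∀ k, (ξ.pull (inc ρ k)).Rk k := fun k y => y.2
  obtain ⟨c1, c2⟩ := c ρ hρ
  constructor
  · choose d hd using fun k => c0 (ξ.pull (inc ρ k)) k (hk k)
    choose y hy using fun α : ℕ →₀ ℕ => c2 fun k => (d k).coeff α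
    classical
    let S : Finset (ℕ →₀ ℕ) := (Finset.range (ξ.W.dim + 1)).biUnion fun k => (d k).support
    have hS : ∀ k α, α ∉ S → (d k).coeff α = 0 := by
      intro k α hα
      by_cases hk' : k < ξ.W.dim + 1
      · by_contra hne
        exact hα (Finset.mem_biUnion.2
          ⟨k, Finset.mem_range.2 hk', MvPolynomial.mem_support_iff.2 hne⟩)
      · have : IsEmpty {y // ρ y = k} := ⟨fun y => hk' (by
          have h1 : ρ y.1 ≤ ξ.W.dim := Submodule.finrank_le _
          rw [y.2] at h1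
          exact Nat.lt_succ_of_le h1)⟩
        exact A.fn.empty _
    have hm : ∀ k, MvPolynomial.map (pullR (inc ρ k)) (∑ α ∈ S, MvPolynomial.monomial α (y α)) =
        d k := by
      intro k
      ext α
      rw [MvPolynomial.coeff_map, MvPolynomial.coeff_sum]
      simp only [MvPolynomial.coeff_monomial, Finset.sum_ite_eq']
      split_ifs with hα
      · exact hy α k
      · rw [map_zero, hS k α hα]
    refine ⟨∑ α ∈ S, MvPolynomial.monomial α (y α), fun K' _ _ _ f k L hL hs => ?_⟩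
    let f' : C(K', {y // ρ y = k}) :=
      ⟨fun x => ⟨f x, Cb1.rk_split hL hs x⟩, f.continuous.subtype_mk _⟩
    have e : pullR f = (pullR f').comp (pullR (inc ρ k)) := RingHom.ext fun a =>
      (pull_comp (inc ρ k).continuous.isProperMap f'.continuous.isProperMap a).symm
    rw [e, ← MvPolynomial.map_map, hm]
    exact hd k K' f' k L hL hs
  · intro x hx
    refine c1 x fun k => ?_
    obtain ⟨K', _, _, _, g, L, hL, hs, hi, -⟩ := s (ξ.pull (inc ρ k)) k (hk k)
    refine hi ?_
    rw [map_zero, pull_comp (inc ρ k).continuous.isProperMap g.continuous.isProperMap]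
    exact hx K' ((inc ρ k).comp g) k L hL hs

end

end Pool.Agent.MP_826def_gt.BL
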