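import Pool.Agent.MP_826def_gt.BL.Spec

/-! Every bundle is pulled back from a compact space. -/

namespace Pool.Agent.MP_826def_gt.BL

open Set Topology Pool.Agent.MP_826def_gt.MU

noncomputable section

section
variable {A : Type} [CStarAlgebra A]

/-- The denominator of the orthogonal projection. -/
def den (p : A) : A := 1 + star (p - star p) * (p - star p)

theorem den_unit (p : A) : IsUnit (den p) := by
  by_contra h
  have h1 : (-1 : ℝ) ∈ spectrum ℝ (star (p - star p) * (p - star p)) := by
    rw [spectrum.mem_iff, map_neg, map_one, ← IsUnit.neg_iff, neg_sub, sub_neg_eq_add, add_comm]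
    exact h
  exact absurd (spectrum_star_mul_self_nonneg _ h1) (by norm_num)

/-- The orthogonal projection with the same range. -/
def orth (p : A) : A := p * star p * Ring.inverse (den p)

theorem orth_cont : Continuous (orth (A := A)) := by
  refine (continuous_id.mul continuous_star).mul (continuous_iff_continuousAt.2 fun p => ?_)
  have c : Continuous (den (A := A)) := by unfold den; fun_prop
  exact ContinuousAt.comp (f := den) (NormedRing.inverse_continuousAt (den_unit p).unit)
    c.continuousAt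

theorem orth_spec {p : A} (hp : p * p = p) :
    orth p * p = p ∧ p * orth p = orth p ∧ orth p * orth p = orth p ∧ ‖orth p‖ ≤ 1 := by
  have hq : star p * star p = star p := by rw [← star_mul, hp]
  have e : den p = 1 - p - star p + p * star p + star p * p := by
    rw [den, star_sub, star_star, sub_mul, mul_sub, mul_sub, hp, hq]
    abel
  have h1 : den p * p = p * star p * p := by
    simp only [e, add_mul, sub_mul, one_mul, mul_assoc, hp]
    abel
  have h2 : p * den p = p * star p * p := by
    simp only [e, mul_add, mul_sub, mul_one, ← mul_assoc, hp]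
    abel
  have s : star (den p) = den p := by simp [den]
  have c1 : Commute p (den p) := h2.trans h1.symm
  have c2 : Commute (star p) (den p) := by
    have := congrArg star c1.eq
    rw [star_mul, star_mul, s] at this
    exact this.symm
  obtain ⟨u, hu⟩ := den_unit p
  have i : Ring.inverse (den p) = ↑u⁻¹ := by rw [← hu, Ring.inverse_unit]
  have d1 : Commute p ↑u⁻¹ := Commute.units_inv_right (hu ▸ c1)
  have d2 : Commute (star p) ↑u⁻¹ := Commute.units_inv_right (hu ▸ c2)
  have si : star (↑u⁻¹ : A) = ↑u⁻¹ := by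
    rw [← Units.coe_star_inv]
    exact congrArg (fun v : Aˣ => (↑v⁻¹ : A)) (Units.ext (by rw [Units.coe_star, hu, s]))
  have a : orth p * p = p := by
    rw [orth, i, mul_assoc, ← d1.eq, ← mul_assoc, ← h2, ← hu, Units.mul_inv_cancel_right]
  have b : orth p * orth p = orth p := by
    refine (congrArg (orth p * ·) (rfl : orth p = p * star p * Ring.inverse (den p))).trans ?_
    show orth p * (p * star p * Ring.inverse (den p)) = _
    rw [← mul_assoc, ← mul_assoc, a, orth]
  refine ⟨a, by rw [orth, ← mul_assoc, ← mul_assoc, hp], b, IsStarProjection.norm_le _ ⟨b, ?_⟩⟩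
  rw [IsSelfAdjoint, orth, i, star_mul, star_mul, star_star, si, (d1.mul_left d2).eq]

end

theorem cl : S_Cl := by
  intro T _ ξ
  let E : FD := ⟨EuclideanSpace ℂ (Fin ξ.W.dim)⟩
  let φ : ξ.W ≃L[ℂ] EuclideanSpace ℂ (Fin ξ.W.dim) := .ofFinrankEq (by simp)
  let q : T → EuclideanSpace ℂ (Fin ξ.W.dim) →L[ℂ] EuclideanSpace ℂ (Fin ξ.W.dim) := fun x =>
    (φ : ξ.W →L[ℂ] _) ∘L ξ.p x ∘L (φ.symm : _ →L[ℂ] ξ.W)
  have cq : Continuous q := continuous_const.clm_comp (ξ.p.continuous.clm_comp continuous_const)
  have hi : ∀ x w, ξ.p x (ξ.p x w) = ξ.p x w := fun x w =>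
    congrArg (fun r : ξ.W →L[ℂ] ξ.W => r w) (ξ.idem x)
  have hq : ∀ x, q x * q x = q x := fun x => ContinuousLinearMap.ext fun w => by
    simp [q, hi]
  have := FiniteDimensional.proper ℂ (E →L[ℂ] E)
  have hK : IsCompact {Q : E →L[ℂ] E | Q ∘L Q = Q ∧ ‖Q‖ ≤ 1} :=
    (isCompact_closedBall (0 : E →L[ℂ] E) 1).of_isClosed_subset
      ((isClosed_eq (continuous_id.clm_comp continuous_id) continuous_id).inter
        (isClosed_le continuous_norm continuous_const)) fun Q hQ => mem_closedBall_zero_iff.2 hQ.2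
  refine ⟨{Q : E →L[ℂ] E | Q ∘L Q = Q ∧ ‖Q‖ ≤ 1}, inferInstance, isCompact_iff_compactSpace.1 hK,
    inferInstance, ⟨fun x => ⟨orth (q x), (orth_spec (hq x)).2.2⟩,
      (orth_cont.comp cq).subtype_mk _⟩, ⟨E, ⟨Subtype.val, continuous_subtype_val⟩, fun Q => Q.2.1⟩,
    ⟨fun x => (φ : ξ.W →L[ℂ] _) ∘L ξ.p x, continuous_const.clm_comp ξ.p.continuous⟩,
    ⟨fun x => (φ.symm : EuclideanSpace ℂ (Fin ξ.W.dim) →L[ℂ] ξ.W) ∘L orth (q x),
      continuous_const.clm_comp (orth_cont.comp cq)⟩,
    fun x => ⟨ContinuousLinearMap.ext fun w => ?_, (orth_spec (hq x)).2.1⟩⟩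
  have := congrArg (fun r => φ.symm (r (φ w))) (orth_spec (hq x)).1
  simpa [q] using this

end

end Pool.Agent.MP_826def_gt.BL
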