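import Pool.Agent.MP_826def_gt.BL.Spec

/-! Classes on a compact space and the level sets of a locally constant function. -/

namespace Pool.Agent.MP_826def_gt.BL

open Set Topology Pool.Agent.MP_826def_gt.MU

noncomputable section

variable {K : Type} [TopologicalSpace K] {ρ : K → ℕ}

theorem inc_open (hρ : IsLocallyConstant ρ) (k : ℕ) : IsOpenEmbedding (inc ρ k) :=
  (hρ.isOpen_fiber k).isOpenEmbedding_subtypeVal

theorem inc_proper (hρ : IsLocallyConstant ρ) (k : ℕ) : IsProperMap (inc ρ k) :=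
  (hρ.isClosed_fiber k).isClosedEmbedding_subtypeVal.isProperMap

variable [C : Fact Core]

theorem pull_push_self (A : Api) (hρ : IsLocallyConstant ρ) (k : ℕ) (y : h {y // ρ y = k}) :
    pull (inc ρ k) (push (inc ρ k) y) = y := by
  have e := (A.fn.bc (inc ρ k) (inc ρ k) (ContinuousMap.id _) (ContinuousMap.id _)
    (inc_proper hρ k) (inc_open hρ k) IsOpenEmbedding.id (fun _ => rfl)
    (fun x _ => ⟨x, rfl⟩)).2 y
  rw [e, A.fn.push_homeo (ContinuousMap.id _) (ContinuousMap.id _) (fun _ => rfl) (fun _ => rfl),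
    pull_id, pull_id]

theorem pull_push_ne (A : Api) (hρ : IsLocallyConstant ρ) {k l : ℕ} (hkl : l ≠ k)
    (y : h {y // ρ y = l}) : pull (inc ρ k) (push (inc ρ l) y) = 0 := by
  have ho : IsOpenEmbedding (⟨Empty.elim, continuous_of_discreteTopology⟩ :
      C(Empty, {y // ρ y = k})) := IsOpenEmbedding.of_isEmpty _
  have e := (A.fn.bc (inc ρ k) (inc ρ l) ⟨Empty.elim, continuous_of_discreteTopology⟩
    ⟨Empty.elim, continuous_of_discreteTopology⟩ (inc_proper hρ k) (inc_open hρ l) ho
    (fun u => u.elim) (fun x hx => by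
      obtain ⟨z, hz⟩ := hx
      have h1 : z.1 = x.1 := hz
      exact (hkl (z.2.symm.trans ((congrArg ρ h1).trans x.2))).elim)).2 y
  rw [e, A.fn.empty (pull _ y), map_zero]

theorem sep_fin (A : Api) (hρ : IsLocallyConstant ρ) (F : Finset ℕ) :
    ∀ c : Raw K, c.Good → (∀ z ∈ c.Z, ρ z.1 ∈ F) → (∀ k, pull (inc ρ k) (cls c) = 0) →
      cls c = 0 := by
  induction F using Finset.induction_on with
  | empty =>
    intro c hc hZ _
    exact cls_empty hc (eq_empty_of_forall_notMem fun z hz => Finset.notMem_empty _ (hZ z hz))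
  | insert a F _ ih =>
    intro c hc hZ h0
    have hG : IsOpen {z : K × c.V | ρ z.1 = a} := (hρ.isOpen_fiber a).preimage continuous_fst
    have hG' : IsOpen {z : K × c.V | ρ z.1 ≠ a} :=
      (hρ.isClosed_fiber a).isOpen_compl.preimage continuous_fst
    have hd : Disjoint {z : K × c.V | ρ z.1 = a} {z : K × c.V | ρ z.1 ≠ a} :=
      Set.disjoint_left.2 fun z h1 h2 => h2 h1
    have hU : c.Z ⊆ {z : K × c.V | ρ z.1 = a} ∪ {z : K × c.V | ρ z.1 ≠ a} :=
      fun z _ => em (ρ z.1 = a)
    have g1 := C.out.good1.res' hc hG hG' hd hU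
    have g2 := C.out.good1.res' hc hG' hG hd.symm (hU.trans (union_comm _ _).subset)
    have es := cls_split hc hG hG' hd hU
    have e1 := A.fn.push_res (inc ρ a) _ (inc_open hρ a) g1 fun z hz => ⟨⟨z.1, hz.1.2⟩, rfl⟩
    have e2 : pull (inc ρ a) (cls (c.res {z : K × c.V | ρ z.1 ≠ a})) = 0 := by
      rw [pull_cls (inc_proper hρ a) g2]
      exact cls_empty (C.out.good1.pull g2 (inc_proper hρ a))
        (eq_empty_of_forall_notMem fun z hz => hz.1.2 z.1.2)
    have e3 := h0 a
    rw [es, map_add, e2, add_zero, ← e1, pull_push_self A hρ] at e3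
    rw [e3, map_zero] at e1
    rw [← e1, zero_add] at es
    rw [es] at h0 ⊢
    exact ih _ g2 (fun z hz => (Finset.mem_insert.1 (hZ z ⟨hz.1.1, hz.2⟩)).resolve_left hz.1.2) h0

theorem clopen (A : Api) : S_Clopen := by
  intro K _ _ _ ρ hρ
  have hF : ∀ y, ρ y ∈ hρ.range_finite.toFinset := fun y => by
    rw [Finite.mem_toFinset]
    exact ⟨y, rfl⟩
  refine ⟨fun x => ?_, fun x => ?_⟩
  · induction x using h_ind with | _ c hc => ?_
    exact sep_fin A hρ _ c hc fun z _ => hF z.1
  · refine ⟨∑ l ∈ hρ.range_finite.toFinset, push (inc ρ l) (x l), fun k => ?_⟩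
    rw [map_sum]
    by_cases hk : k ∈ hρ.range_finite.toFinset
    · rw [Finset.sum_eq_single_of_mem k hk fun l _ hl => pull_push_ne A hρ hl _,
        pull_push_self A hρ]
    · have : IsEmpty {y // ρ y = k} := ⟨fun y => hk (y.2 ▸ hF y.1)⟩
      rw [A.fn.empty (x k)]
      exact A.fn.empty _

end

end Pool.Agent.MP_826def_gt.BL
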