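import Pool.Agent.MP_826def_gt.BL.LN
import Pool.Agent.MP_826def_gt.BL.Cl
import Pool.Agent.MP_826def_gt.BL.Clopen
import Pool.Agent.MP_826def_gt.BL.Cb0
import Pool.Agent.MP_826def_gt.BL.Cb1
import Pool.Agent.MP_826def_gt.BL.Cb

/-! The total Landweber-Novikov operation. -/

namespace Pool.Agent.MP_826def_gt.BL

open Pool.Agent.MP_826def_gt.MU

theorem ln [Fact Core] (A : Api) (f : S_FGL) (s : S_Split) (ch : S_Ch) : S_LN :=
  ln0 A cl (cb A f (cb1 A s (clopen A) (cb0 A f s ch)))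

end Pool.Agent.MP_826def_gt.BL
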