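import Pool.Agent.MP_826def_gt.BL.M
import Pool.Agent.MP_826def_gt.BA.Prod

/-! The class of a section with compact zero set, multiplied by characteristic classes. -/

namespace Pool.Agent.MP_826def_gt.BL

open Set Topology Pool.Agent.MP_826def_gt.MU

noncomputable section

variable {T T' T'' Y Y' : Type} [TopologicalSpace T] [TopologicalSpace T'] [TopologicalSpace T'']
  [TopologicalSpace Y] [TopologicalSpace Y']

/-- The cocycle given by a global section. -/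
abbrev rawOf (ξ : Bun T) (σ : C(T, ξ.W)) : Raw T :=
  ⟨FD.zero, ξ.W, univ, fun z => ξ.p z.1, fun z => σ z.1⟩

theorem tw_pt {ξ : Bun T} {σ : C(T, ξ.W)} :
    Tw (toPt T) ξ σ ↔ (∀ x, ξ.p x (σ x) = σ x) ∧ IsCompact {x | σ x = 0} := by
  refine and_congr_right fun _ => ⟨fun e => ?_, fun e => ?_⟩
  · exact isCompact_iff_compactSpace.2 ⟨by simpa using e.isCompact_preimage isCompact_univ⟩
  · have : CompactSpace {x // σ x = 0} := isCompact_iff_compactSpace.1 e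
    exact continuous_const.isProperMap

theorem rawOf_good {ξ : Bun T} {σ : C(T, ξ.W)} (t : Tw (toPt T) ξ σ) : (rawOf ξ σ).Good := by
  refine ⟨isOpen_univ, (ξ.p.continuous.comp continuous_fst).continuousOn,
    (σ.continuous.comp continuous_fst).continuousOn, fun z _ => ξ.idem z.1, fun z _ => t.1 z.1, ?_⟩
  have := (tw_pt.1 t).2.prod (isCompact_univ (X := Unit))
  exact (congrArg IsCompact (Set.ext fun z => and_comm)).mp this

variable [C : Fact Core]

/-- The class of a section with compact zero set. -/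
abbrev uu (ξ : Bun T) (σ : C(T, ξ.W)) : h T := twist (toPt T) ξ σ (1 : h Unit)

theorem uu_eq {ξ : Bun T} {σ : C(T, ξ.W)} (t : Tw (toPt T) ξ σ) : uu ξ σ = cls (rawOf ξ σ) := by
  rw [uu, one_def, twist_cls t (C.out.good1.one Unit)]
  exact (BA.cls_lin C.out.eqv (rawOf_good t) (C.out.good2.twist (C.out.good1.one Unit) t)
    (ContinuousLinearEquiv.refl ℂ _) (ContinuousLinearMap.inr ℂ Unit ξ.W)
    (ContinuousLinearMap.snd ℂ Unit ξ.W) (fun _ => rfl) (fun _ _ => trivial) (fun _ _ _ => trivial)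
    (fun _ _ _ => rfl) fun _ _ => rfl).symm

theorem uu_prod {ξ : Bun T} {σ : C(T, ξ.W)} {ξ' : Bun T'} {σ' : C(T', ξ'.W)} (t : Tw (toPt T) ξ σ)
    (t' : Tw (toPt T') ξ' σ') {f : C(T'', T)} {g : C(T'', T')} (hp : Pr f g)
    (t'' : Tw (toPt T'') ((ξ.pull f).sum (ξ'.pull g)) ((σ.comp f).prodMk (σ'.comp g))) :
    prod f g (uu ξ σ) (uu ξ' σ') =
      uu ((ξ.pull f).sum (ξ'.pull g)) ((σ.comp f).prodMk (σ'.comp g)) := by
  rw [uu_eq t, uu_eq t', uu_eq t'', prod_cls hp (rawOf_good t) (rawOf_good t')]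
  exact BA.cls_lin C.out.eqv (C.out.good2.prod (rawOf_good t) (rawOf_good t') hp) (rawOf_good t'')
    (ContinuousLinearEquiv.prodUnique ℂ Unit Unit).symm (ContinuousLinearMap.id ℂ _)
    (ContinuousLinearMap.id ℂ _) (fun _ => rfl) (fun _ _ => ⟨trivial, trivial⟩)
    (fun _ _ _ => trivial) (fun _ _ _ => rfl) fun _ _ => rfl

theorem uu_push (A : Api) {ξ : Bun T} {σ : C(T, ξ.W)} (t : Tw (toPt T) ξ σ) {k : C(T', T)}
    (hk : IsOpenEmbedding k) (hz : ∀ x, σ x = 0 → x ∈ range k) :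
    Tw (toPt T') (ξ.pull k) (σ.comp k) ∧ uu ξ σ = push k (uu (ξ.pull k) (σ.comp k)) := by
  have := A.fn.bcT (toPt T) ξ σ (ContinuousMap.id Unit) k (toPt T') t IsOpenEmbedding.id hk
    (fun _ => rfl) fun x hx _ => hz x hx
  refine ⟨this.1, Eq.trans ?_ (this.2 1)⟩
  rw [A.fn.push_homeo _ (ContinuousMap.id Unit) (fun _ => rfl) (fun _ => rfl), pull_id]

theorem uu_half (A : Api) {ξ : Bun T} {σ : C(T, ξ.W)} {k : C(T', T)} (hk : IsOpenEmbedding k)
    (t : Tw (toPt T') (ξ.pull k) (σ.comp k))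
    (hg : ((rawOf ξ σ).res {z | z.1 ∈ range k}).Good) :
    cls ((rawOf ξ σ).res {z | z.1 ∈ range k}) = push k (uu (ξ.pull k) (σ.comp k)) := by
  rw [← A.fn.push_res k _ hk hg fun z hz => hz.1.2, uu_eq t]
  exact congrArg _ (BA.cls_lin C.out.eqv
    (C.out.good1.pullO hg hk.isEmbedding fun z hz => hz.1.2) (rawOf_good t)
    (ContinuousLinearEquiv.refl ℂ _) (ContinuousLinearMap.id ℂ _) (ContinuousLinearMap.id ℂ _)
    (fun _ => rfl) (fun z _ => ⟨trivial, z.1, rfl⟩) (fun _ _ _ => trivial) (fun _ _ _ => rfl)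
    fun _ _ => rfl)

theorem uu_split (A : Api) {ξ : Bun T} {σ : C(T, ξ.W)} (t : Tw (toPt T) ξ σ) {k : C(T', T)}
    {l : C(T'', T)} (hk : IsOpenEmbedding k) (hl : IsOpenEmbedding l)
    (tk : Tw (toPt T') (ξ.pull k) (σ.comp k)) (tl : Tw (toPt T'') (ξ.pull l) (σ.comp l))
    (hd : Disjoint (range k) (range l)) (hz : ∀ x, σ x = 0 → x ∈ range k ∪ range l) :
    uu ξ σ = push k (uu (ξ.pull k) (σ.comp k)) + push l (uu (ξ.pull l) (σ.comp l)) := by
  have o1 : IsOpen {z : T × FD.zero | z.1 ∈ range k} := hk.isOpen_range.preimage continuous_fst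
  have o2 : IsOpen {z : T × FD.zero | z.1 ∈ range l} := hl.isOpen_range.preimage continuous_fst
  have d : Disjoint {z : T × FD.zero | z.1 ∈ range k} {z : T × FD.zero | z.1 ∈ range l} :=
    hd.preimage Prod.fst
  have z : (rawOf ξ σ).Z ⊆ {z : T × FD.zero | z.1 ∈ range k} ∪ {z : T × FD.zero | z.1 ∈ range l} :=
    fun z h => hz z.1 h.2
  rw [uu_eq t, cls_split (rawOf_good t) o1 o2 d z,
    uu_half A hk tk (C.out.good1.res' (rawOf_good t) o1 o2 d z),
    uu_half A hl tl (C.out.good1.res' (rawOf_good t) o2 o1 d.symm (union_comm _ _ ▸ z))]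

/-- The class of the section times a characteristic class, extended by zero. -/
def dv (M : MT) (α : ℕ →₀ ℕ) (j : C(T, Y)) (ξ : Bun T) (σ : C(T, ξ.W)) : h Y :=
  push j (M ξ α (uu ξ σ))

variable {cb : CbT} {M : MT}

theorem dv_iso (A : Api) (m : IsM cb M) (α : ℕ →₀ ℕ) (j : C(T, Y)) {ξ η : Bun T} {σ : C(T, ξ.W)}
    {τ : C(T, η.W)} (t : Tw (toPt T) ξ σ) (u : C(T, ξ.W →L[ℂ] η.W)) (v : C(T, η.W →L[ℂ] ξ.W))
    (e : ∀ x, v x ∘L u x = ξ.p x ∧ u x ∘L v x = η.p x ∧ u x (σ x) = τ x) :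
    dv M α j ξ σ = dv M α j η τ := by
  rw [dv, dv, m.iso ⟨u, v, fun x => ⟨(e x).1, (e x).2.1⟩⟩, uu, (A.tw.iso _ ξ η σ τ u v t e).2]

theorem dv_res (A : Api) (m : IsM cb M) (α : ℕ →₀ ℕ) {j : C(T, Y)} (hj : IsOpenEmbedding j)
    (ξ : Bun T) (σ : C(T, ξ.W)) {k : C(T', T)} (hk : IsOpenEmbedding k) :
    push j (M ξ α (push k (uu (ξ.pull k) (σ.comp k)))) =
      dv M α (j.comp k) (ξ.pull k) (σ.comp k) := by
  rw [dv, ← m.push A, A.fn.push_comp j k hj hk]

theorem dv_pull (A : Api) (m : IsM cb M) (α : ℕ →₀ ℕ) {j : C(T, Y)} {j' : C(T', Y')}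
    (hj : IsOpenEmbedding j) (hj' : IsOpenEmbedding j') {ξ : Bun T} {σ : C(T, ξ.W)}
    (t : Tw (toPt T) ξ σ) {Φ : C(Y', Y)} (hΦ : IsProperMap Φ) (f : C(T', T))
    (e : ∀ u, j (f u) = Φ (j' u)) (e' : ∀ x, Φ x ∈ range j → x ∈ range j') :
    pull Φ (dv M α j ξ σ) = dv M α j' (ξ.pull f) (σ.comp f) := by
  have := A.fn.bc Φ j j' f hΦ hj hj' e e'
  rw [dv, this.2, m.pull A, uu, (A.tw.pull_twist _ ξ σ f t this.1).2]
  rfl

theorem dv_twist (A : Api) (m : IsM cb M) (α : ℕ →₀ ℕ) {j : C(T, Y)} {j' : C(T', Y')}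
    (hj : IsOpenEmbedding j) (hj' : IsOpenEmbedding j') {ξ : Bun T} {σ : C(T, ξ.W)}
    (t : Tw (toPt T) ξ σ) {g : C(Y', Y)} {η : Bun Y'} {τ : C(Y', η.W)} (hg : Tw g η τ)
    (f : C(T', T)) (e : ∀ u, j (f u) = g (j' u)) (e' : ∀ x, g x ∈ range j → x ∈ range j') :
    twist g η τ (dv M α j ξ σ) = push j' (M (ξ.pull f) α
      (uu ((ξ.pull f).sum (η.pull j')) ((σ.comp f).prodMk (τ.comp j')))) := by
  have := A.fn.bcT g η τ j j' f hg hj hj' e fun x _ => e' x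
  rw [dv, this.2, m.twist A, uu, (A.tw.twist_twist f _ _ _ ξ σ this.1 t).2]
  rfl

theorem dv_prod (A : Api) (hc : IsCbF cb) (m : IsM cb M) (α : ℕ →₀ ℕ) {Y'' : Type}
    [TopologicalSpace Y''] {k : C(T, Y)} {l : C(T', Y')} {j : C(T'', Y'')} (hk : IsOpenEmbedding k)
    (hl : IsOpenEmbedding l) (hj : IsOpenEmbedding j) {ξ : Bun T} {σ : C(T, ξ.W)} {ξ' : Bun T'}
    {σ' : C(T', ξ'.W)} (t : Tw (toPt T) ξ σ) (t' : Tw (toPt T') ξ' σ') {F : C(Y'', Y)}
    {G : C(Y'', Y')} (hp : Pr F G) (f : C(T'', T)) (g : C(T'', T')) (e : ∀ u, k (f u) = F (j u))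
    (e' : ∀ u, l (g u) = G (j u)) (e'' : ∀ x, F x ∈ range k → G x ∈ range l → x ∈ range j)
    (t'' : Tw (toPt T'') ((ξ.pull f).sum (ξ'.pull g)) ((σ.comp f).prodMk (σ'.comp g))) :
    dv M α j ((ξ.pull f).sum (ξ'.pull g)) ((σ.comp f).prodMk (σ'.comp g)) =
      ∑ q ∈ Finset.HasAntidiagonal.antidiagonal α,
        prod F G (dv M q.1 k ξ σ) (dv M q.2 l ξ' σ') := by
  have := A.fn.bcP F G j k l f g hp hj hk hl e e' e''
  rw [dv, m.sum hc, map_sum]
  refine Finset.sum_congr rfl fun q _ => ?_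
  rw [dv, dv, this.2, m.prod_left ξ this.1, prod_comm this.1 (BA.Pr.symm this.1),
    m.prod_left ξ' (BA.Pr.symm this.1), prod_comm (BA.Pr.symm this.1) this.1,
    uu_prod t t' this.1 t'']

omit C in
theorem pr_V {X K : Type} [TopologicalSpace X] [TopologicalSpace K] {f : C(X, K)} {g : C(X, Y)}
    (hp : Pr f g) (V V' : FD) :
    Pr (f.prodMap (ContinuousMap.fst : C(V × V', V))) (g.prodMap ContinuousMap.snd) :=
  (Homeomorph.prodProdProdComm K Y V V').isProperMap.comp (IsProperMap.prodMap hp isProperMap_id)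

theorem prod_pushV {X K : Type} [TopologicalSpace X] [TopologicalSpace K] {f : C(X, K)}
    {g : C(X, Y)} (hp : Pr f g) (V V' : FD) (a : h (K × V)) (b : h (Y × V')) :
    prod f g (pushV V a) (pushV V' b) = pushV (V.prod V')
      (prod (f.prodMap (ContinuousMap.fst : C(V × V', V))) (g.prodMap ContinuousMap.snd) a b) := by
  induction a using h_ind with | _ a ha => ?_
  induction b using h_ind with | _ b hb => ?_
  have g1 := C.out.good2.prod ha hb (pr_V hp V V')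
  rw [pushV_cls V ha, pushV_cls V' hb, prod_cls hp (C.out.good1.pushV V ha)
    (C.out.good1.pushV V' hb), prod_cls (pr_V hp V V') ha hb, pushV_cls (V.prod V') g1]
  exact BA.cls_lin C.out.eqv
    (C.out.good2.prod (C.out.good1.pushV V ha) (C.out.good1.pushV V' hb) hp)
    (C.out.good1.pushV (V.prod V') g1) (ContinuousLinearEquiv.prodProdProdComm ℂ V V' a.V b.V)
    (ContinuousLinearMap.id ℂ _) (ContinuousLinearMap.id ℂ _) (fun _ => rfl) (fun _ hz => hz)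
    (fun _ hz _ => hz) (fun _ _ _ => rfl) fun _ _ => rfl

end

end Pool.Agent.MP_826def_gt.BL
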