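import Pool.Agent.MP_826def_gt.BL.D

/-! The total Landweber-Novikov operation, given the characteristic classes. -/

namespace Pool.Agent.MP_826def_gt.BL

open Set Topology Pool.Agent.MP_826def_gt.MU

noncomputable section

variable {X X' K Y : Type} [TopologicalSpace X] [TopologicalSpace X'] [TopologicalSpace K]
  [TopologicalSpace Y]

/-- The bundle of a cocycle. -/
abbrev bun {c : Raw X} (hc : c.Good) : Bun c.O :=
  ⟨c.W, ⟨fun z => c.p z, hc.cp.domRestrict⟩, fun z => hc.idem z z.2⟩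

/-- The section of a cocycle. -/
abbrev sec {c : Raw X} (hc : c.Good) : C(c.O, (bun hc).W) := ⟨fun z => c.s z, hc.cs.domRestrict⟩

/-- The inclusion of the domain of a cocycle. -/
abbrev val (c : Raw X) : C(c.O, X × c.V) := ⟨Subtype.val, continuous_subtype_val⟩

theorem val_op {c : Raw X} (hc : c.Good) : IsOpenEmbedding (val c) :=
  hc.op.isOpenEmbedding_subtypeVal

theorem tw_sec {c : Raw X} (hc : c.Good) : Tw (toPt c.O) (bun hc) (sec hc) := by
  refine tw_pt.2 ⟨fun z => hc.sec z z.2, Subtype.isCompact_iff.2 ?_⟩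
  refine (congrArg IsCompact (Set.ext fun z => ?_)).mp hc.cpt
  exact ⟨fun h => ⟨⟨z, h.1⟩, h.2, rfl⟩, by rintro ⟨w, h, rfl⟩; exact ⟨w.2, h⟩⟩

variable [C : Fact Core]

theorem val_eq (A : Api) {c : Raw X} (hc : c.Good) :
    pushV c.V (push (val c) (uu (bun hc) (sec hc))) = cls c := by
  have g := C.out.good1.lift hc
  have z : ∀ z ∈ c.lift.Z, z.1 ∈ range (val c) := fun z hz => ⟨⟨z.1, hz.1⟩, rfl⟩
  rw [← A.pv.lift c hc, ← A.fn.push_res (val c) c.lift (val_op hc) g z, uu_eq (tw_sec hc)]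
  exact congrArg _ (congrArg _ (BA.cls_lin C.out.eqv (rawOf_good (tw_sec hc))
    (C.out.good1.pullO g (val_op hc).isEmbedding z) (ContinuousLinearEquiv.refl ℂ _)
    (ContinuousLinearMap.id ℂ _) (ContinuousLinearMap.id ℂ _) (fun _ => rfl) (fun _ _ => trivial)
    (fun z _ _ => z.1.2) (fun _ _ _ => rfl) fun _ _ => rfl))

open Classical in
/-- The operation on cocycles. -/
def sr (M : MT) (α : ℕ →₀ ℕ) (c : Raw X) : h X :=
  if hc : c.Good then pushV c.V (dv M α (val c) (bun hc) (sec hc)) else 0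

variable {cb : CbT} {M : MT}

theorem sr_eq (M : MT) (α : ℕ →₀ ℕ) {c : Raw X} (hc : c.Good) :
    sr M α c = pushV c.V (dv M α (val c) (bun hc) (sec hc)) := dif_pos hc

theorem sr_pull (A : Api) (m : IsM cb M) (α : ℕ →₀ ℕ) {c : Raw X} (hc : c.Good) {f : C(X', X)}
    (hf : IsProperMap f) : pull f (sr M α c) = sr M α (c.pull f) := by
  have g := C.out.good1.pull hc hf
  rw [sr_eq M α hc, sr_eq M α g, A.pv.pull c.V f hf, dv_pull A m α (val_op hc) (val_op g)
    (tw_sec hc) (Φ := f.prodMap (ContinuousMap.id c.V)) (hf.prodMap isProperMap_id)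
    ⟨fun z => ⟨(f z.1.1, z.1.2), z.2⟩, Continuous.subtype_mk (by fun_prop) _⟩ (fun _ => rfl)
    fun x ⟨z, hz⟩ => ⟨⟨x, show f.prodMap (ContinuousMap.id c.V) x ∈ c.O from hz ▸ z.2⟩, rfl⟩]
  rfl

theorem sr_move (A : Api) (hb : IsCbF cb) (m : IsM cb M) (α : ℕ →₀ ℕ) (c c' : Raw X) (hc : c.Good)
    (hc' : c'.Good) (mv : Move c c') : sr M α c = sr M α c' := by
  cases mv with
  | germ _ O p s hO hp hs hZ =>
    let k : C(O, c.O) := ⟨inclusion hO, continuous_inclusion hO⟩
    have hk : IsOpenEmbedding k := .inclusion hO (hc'.op.preimage continuous_subtype_val)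
    have u := uu_push A (tw_sec hc) hk fun x hx => ⟨⟨x.1, hZ ⟨x.2, hx⟩⟩, rfl⟩
    rw [sr_eq M α hc, sr_eq M α hc', dv, u.2, dv_res A m α (val_op hc) _ _ hk]
    refine congrArg _ (dv_iso A m α _ u.1 (bun hc').p (bun hc').p fun x =>
      ⟨(hc'.idem x x.2).trans (hp x.2), hc'.idem x x.2, ?_⟩)
    exact (congrArg (p x) (hs x.2).symm).trans (hc'.sec x x.2)
  | htpy E hE =>
    have i : ∀ t : unitInterval, IsProperMap fun x : X => (x, t) := fun t =>
      (Homeomorph.prodComm _ X).isProperMap.comp (pr_id (ContinuousMap.const X t))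
    exact (sr_pull A m α hE (f := ⟨fun x => (x, 0), by fun_prop⟩) (i 0)).symm.trans
      ((A.fn.htpy (ContinuousMap.id _) _ _ isProperMap_id (fun _ => rfl) (fun _ => rfl) _).trans
        (sr_pull A m α hE (f := ⟨fun x => (x, 1), by fun_prop⟩) (i 1)))
  | stab _ E =>
    have th := A.pv.th (X := X × c.V) E
    have pt := A.tw.pull_twist _ _ _ ⟨fun z : X × c.V × E => ((z.1, z.2.1), z.2.2), by fun_prop⟩
      th.1 (Homeomorph.prodAssoc X c.V E).symm.isProperMap
    rw [sr_eq M α hc, sr_eq M α hc', ← th.2 (dv M α _ _ _), A.pv.pushV, pt.2,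
      dv_twist A m α (val_op hc) (val_op hc') (tw_sec hc) pt.1
        ⟨fun z => ⟨(z.1.1, z.1.2.1), z.2⟩, Continuous.subtype_mk (by fun_prop) _⟩ (fun _ => rfl)
        (fun x ⟨z, hz⟩ => ⟨⟨x, show (x.1, x.2.1) ∈ c.O from
          (show z.1 = (x.1, x.2.1) from hz) ▸ z.2⟩, rfl⟩), ← m.sum_triv hb _ E]
    rfl
  | viso _ V' e =>
    rw [sr_eq M α hc, sr_eq M α hc', ← A.pv.iso c.V V' e, dv_pull A m α (val_op hc) (val_op hc')
      (tw_sec hc) (Φ := (ContinuousMap.id X).prodMap ⟨e, e.continuous⟩)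
      (isProperMap_id.prodMap e.toHomeomorph.isProperMap)
      ⟨fun z => ⟨(z.1.1, e z.1.2), z.2⟩, Continuous.subtype_mk (by fun_prop) _⟩ (fun _ => rfl)
      fun x ⟨z, hz⟩ => ⟨⟨x, show (x.1, e x.2) ∈ c.O from
        (show z.1 = (x.1, e x.2) from hz) ▸ z.2⟩, rfl⟩]
    rfl
  | wemb _ W' j r hr =>
    have hr' : ∀ w, r (j w) = w := fun w => congrArg (fun q : c.W →L[ℂ] c.W => q w) hr
    have hi : ∀ (x : c.O) w, c.p x (c.p x w) = c.p x w := fun x w =>
      congrArg (fun q : c.W →L[ℂ] c.W => q w) (hc.idem x x.2)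
    rw [sr_eq M α hc, sr_eq M α hc']
    refine congrArg _ (dv_iso A m α _ (tw_sec hc)
      ⟨fun x => j ∘L c.p x, continuous_const.clm_comp (bun hc).p.continuous⟩
      ⟨fun x => c.p x ∘L r, (bun hc).p.continuous.clm_comp continuous_const⟩ fun x =>
      ⟨ContinuousLinearMap.ext fun w => ?_, ContinuousLinearMap.ext fun w => ?_, ?_⟩)
    · exact (congrArg (c.p x) (hr' _)).trans (hi x w)
    · exact congrArg j (hi x _)
    · exact congrArg j (hc.sec x x.2)

theorem sr_split (A : Api) (m : IsM cb M) (α : ℕ →₀ ℕ) {c : Raw X} {G G' : Set (X × c.V)}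
    (hc : c.Good) (hG : IsOpen G) (hG' : IsOpen G') (hd : Disjoint G G') (hZ : c.Z ⊆ G ∪ G') :
    sr M α c = sr M α (c.res G) + sr M α (c.res G') := by
  have g := C.out.good1.res' hc hG hG' hd hZ
  have g' := C.out.good1.res' hc hG' hG hd.symm (union_comm _ _ ▸ hZ)
  let k : C((c.res G).O, c.O) := ⟨inclusion inter_subset_left, continuous_inclusion _⟩
  let l : C((c.res G').O, c.O) := ⟨inclusion inter_subset_left, continuous_inclusion _⟩
  have hk : IsOpenEmbedding k :=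
    .inclusion inter_subset_left (g.op.preimage continuous_subtype_val)
  have hl : IsOpenEmbedding l :=
    .inclusion inter_subset_left (g'.op.preimage continuous_subtype_val)
  have u := uu_split A (tw_sec hc) hk hl (tw_sec g) (tw_sec g')
    (disjoint_left.2 (by
      rintro _ ⟨x, rfl⟩ ⟨y, e⟩
      exact disjoint_left.1 hd x.2.2 ((show y.1 = x.1 from congrArg Subtype.val e) ▸ y.2.2)))
    fun x hx => (hZ ⟨x.2, hx⟩).imp (fun e => ⟨⟨x.1, x.2, e⟩, rfl⟩) fun e => ⟨⟨x.1, x.2, e⟩, rfl⟩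
  rw [sr_eq M α hc, sr_eq M α g, sr_eq M α g', dv, u, map_add, map_add, map_add,
    dv_res A m α (val_op hc) _ _ hk, dv_res A m α (val_op hc) _ _ hl]
  rfl

theorem sr_prod (A : Api) (hb : IsCbF cb) (m : IsM cb M) (α : ℕ →₀ ℕ) {f : C(X, K)} {g : C(X, Y)}
    (hp : Pr f g) {a : Raw K} {c : Raw Y} (ha : a.Good) (hc : c.Good) :
    sr M α (a.prod c f g) = ∑ q ∈ Finset.HasAntidiagonal.antidiagonal α,
      prod f g (sr M q.1 a) (sr M q.2 c) := by
  have g1 := C.out.good2.prod ha hc hp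
  have e := dv_prod A hb m α (val_op ha) (val_op hc) (val_op g1) (tw_sec ha) (tw_sec hc)
    (pr_V hp a.V c.V) ⟨fun z => ⟨(f z.1.1, z.1.2.1), z.2.1⟩, Continuous.subtype_mk (by fun_prop) _⟩
    ⟨fun z => ⟨(g z.1.1, z.1.2.2), z.2.2⟩, Continuous.subtype_mk (by fun_prop) _⟩ (fun _ => rfl)
    (fun _ => rfl) (fun x ⟨z, hz⟩ ⟨w, hw⟩ => ⟨⟨x,
      (show z.1 = (f x.1, x.2.1) from hz) ▸ z.2, (show w.1 = (g x.1, x.2.2) from hw) ▸ w.2⟩, rfl⟩)
    (tw_sec g1)
  refine (sr_eq M α g1).trans ((congrArg (pushV (a.V.prod c.V)) e).trans ?_)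
  rw [map_sum]
  exact Finset.sum_congr rfl fun q _ => by rw [sr_eq M _ ha, sr_eq M _ hc, prod_pushV hp]

theorem sr_base (A : Api) (m : IsM cb M) (α : ℕ →₀ ℕ) [CompactSpace K] [T2Space K] {c : Raw K}
    (hc : c.Good) (η : Bun K) (e : (bun hc).Iso (η.pull (ContinuousMap.fst.comp (val c)))) :
    sr M α c = (cb η).coeff α * cls c := by
  rw [sr_eq M α hc, dv, m.eq _ _ η e, (A.act.push ContinuousMap.fst (val c) _).1, ← val_eq A hc]
  exact A.act.pushV (ContinuousMap.id K) c.V _ _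

theorem sr_deg (A : Api) (hb : IsCbF cb) (m : IsM cb M) (α : ℕ →₀ ℕ) {c : Raw X} (hc : c.Good)
    {d : ℤ} (hd : ∀ z ∈ c.O, (rk (c.p z) : ℤ) = d + c.V.dim) :
    IsDeg (d + (Finsupp.weight (fun n => n + 1) α : ℕ)) (sr M α c) := by
  have h1 : IsDeg (d + c.V.dim) (uu (bun hc) (sec hc)) := by
    rw [uu_eq (tw_sec hc)]
    refine A.deg.of_rk _ _ (rawOf_good (tw_sec hc)) fun z _ => ?_
    rw [show (rawOf (bun hc) (sec hc)).V.dim = 0 from Module.finrank_zero_of_subsingleton,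
      Nat.cast_zero, add_zero]
    exact hd z.1 z.1.2
  rw [sr_eq M α hc, IsDeg, A.deg.pushV, dv, A.deg.push, add_right_comm, m.deg A hb _ α h1]

/-- The components of the operation. -/
def sc (M : MT) (α : ℕ →₀ ℕ) (x : h X) : h X := sr M α (rep x)

theorem sc_cls (A : Api) (hb : IsCbF cb) (m : IsM cb M) (α : ℕ →₀ ℕ) {c : Raw X} (hc : c.Good) :
    sc M α (cls c) = sr M α c := rep_lift (sr M α) (sr_move A hb m α) hc

theorem sc_add (A : Api) (hb : IsCbF cb) (m : IsM cb M) (α : ℕ →₀ ℕ) (x y : h X) :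
    sc M α (x + y) = sc M α x + sc M α y := by
  obtain ⟨c, G, G', hc, hG, hG', hd, hZ, rfl, rfl⟩ := C.out.sum.2.1 x y
  rw [← cls_split hc hG hG' hd hZ, sc_cls A hb m α hc,
    sc_cls A hb m α (C.out.good1.res' hc hG hG' hd hZ),
    sc_cls A hb m α (C.out.good1.res' hc hG' hG hd.symm (union_comm _ _ ▸ hZ)),
    sr_split A m α hc hG hG' hd hZ]

theorem sc_fin (m : IsM cb M) (x : h X) :
    ∃ P : Finset (ℕ →₀ ℕ), ∀ α ∉ P, sc M α x = 0 := by
  obtain ⟨P, hP⟩ := m.fin (bun (rep_good x))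
  exact ⟨P, fun α hα => by rw [sc, sr_eq M α (rep_good x), dv, hP α hα, map_zero, map_zero]⟩

theorem exists_poly (m : IsM cb M) [CompactSpace K] [T2Space K] (x : h K) :
    ∃ P : MvPolynomial ℕ (h K), ∀ α, P.coeff α = sc M α x := by
  classical
  obtain ⟨S, hS⟩ := sc_fin m x
  refine ⟨∑ β ∈ S, MvPolynomial.monomial β (sc M β x), fun α => ?_⟩
  simp only [MvPolynomial.coeff_sum, MvPolynomial.coeff_monomial, Finset.sum_ite_eq']
  split_ifs with e
  · rfl
  · exact (hS α e).symm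

theorem exists_hom (A : Api) (hb : IsCbF cb) (m : IsM cb M) (K : Type) [TopologicalSpace K]
    [CompactSpace K] [T2Space K] :
    ∃ s : h K →+* MvPolynomial ℕ (h K), ∀ x α, (s x).coeff α = sc M α x := by
  classical
  choose P hP using exists_poly (K := K) m
  have h1 : ∀ x y, P (x + y) = P x + P y := fun x y => MvPolynomial.ext _ _ fun α => by
    rw [MvPolynomial.coeff_add, hP, hP, hP, sc_add A hb m]
  refine ⟨{ AddMonoidHom.mk' P h1 with map_one' := ?_, map_mul' := fun x y => ?_ }, hP⟩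
  · refine MvPolynomial.ext _ _ fun α => (hP 1 α).trans ?_
    have g := C.out.good1.one K
    rw [one_def, sc_cls A hb m α g, sr_base A m α g (Bun.triv K FD.zero)
      ⟨0, 0, fun _ => ⟨ContinuousLinearMap.ext fun _ => rfl, ContinuousLinearMap.ext fun _ => rfl⟩⟩,
      hb.triv, ← one_def, mul_one]
  · refine MvPolynomial.ext _ _ fun α => (hP _ α).trans ?_
    show _ = (P x * P y).coeff α
    induction x using h_ind with | _ a ha => ?_
    induction y using h_ind with | _ c hc => ?_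
    rw [MvPolynomial.coeff_mul, mul_def, prod_cls (pr_id _) ha hc,
      sc_cls A hb m α (C.out.good2.prod ha hc (pr_id _)), sr_prod A hb m α (pr_id _) ha hc]
    exact Finset.sum_congr rfl fun q _ => by
      rw [hP, hP, sc_cls A hb m _ ha, sc_cls A hb m _ hc, mul_def]

theorem ln0 (A : Api) (cl : S_Cl) (cb : S_Cb) : S_LN := by
  obtain ⟨cb, hb⟩ := cb
  obtain ⟨M, m⟩ := exists_M A cl hb
  have := fun (K : Type) (_ : TopologicalSpace K) (_ : CompactSpace K) (_ : T2Space K) =>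
    exists_hom A hb m K
  choose s hs using this
  refine ⟨fun K t c e => s K t c e, fun f x => MvPolynomial.ext _ _ fun α => ?_,
    fun {K} _ _ _ L hL => MvPolynomial.ext _ _ fun α => ?_, fun d x hx α => ?_⟩
  · induction x using h_ind with | _ c hc => ?_
    have hf := f.continuous.isProperMap
    rw [MvPolynomial.coeff_map, hs, hs, pullR_apply, pullR_apply, pull_cls hf hc,
      sc_cls A hb m α hc, sc_cls A hb m α (C.out.good1.pull hc hf), sr_pull A m α hc hf]
  · have t := (A.tw.tw_id L 0 fun x => map_zero _).1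
    have g := C.out.good2.twist (C.out.good1.one K) t
    have e : eu L = cls ((Raw.one K).twist (ContinuousMap.id K) L (0 : C(K, L.W))) :=
      twist_cls t (C.out.good1.one K)
    have c1 := L.p.continuous.comp (ContinuousMap.fst.comp (val
      ((Raw.one K).twist (ContinuousMap.id K) L (0 : C(K, L.W))))).continuous
    rw [hs, MvPolynomial.coeff_C_mul, ← hb.line L hL, mul_comm]
    conv_lhs => rw [e, sc_cls A hb m α g]
    rw [sr_base A m α g L ⟨⟨fun z => L.p z.1.1 ∘L ContinuousLinearMap.snd ℂ Unit L.W,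
      c1.clm_comp continuous_const⟩, ⟨fun z => ContinuousLinearMap.inr ℂ Unit L.W ∘L L.p z.1.1,
      continuous_const.clm_comp c1⟩, fun z => ⟨ContinuousLinearMap.ext fun w => Prod.ext rfl
        (congrArg (fun q : L.W →L[ℂ] L.W => q w.2) (L.idem z.1.1)), L.idem z.1.1⟩⟩, ← e]
  · obtain ⟨c, hc, rfl, hd⟩ := A.deg.rep d x hx
    rw [hs, sc_cls A hb m α hc]
    exact sr_deg A hb m α hc hd

end

end Pool.Agent.MP_826def_gt.BL
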