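import Pool.Agent.MP_826def_gt.BL.Spec

/-! Multiplication by the characteristic classes of a bundle over an arbitrary space. -/

namespace Pool.Agent.MP_826def_gt.BL

open Set Topology Pool.Agent.MP_826def_gt.MU

noncomputable section

variable {T T' K K' : Type} [TopologicalSpace T] [TopologicalSpace T'] [TopologicalSpace K]
  [TopologicalSpace K']

theorem iso_refl (ξ : Bun T) : ξ.Iso ξ := ⟨ξ.p, ξ.p, fun x => ⟨ξ.idem x, ξ.idem x⟩⟩

theorem iso_symm {ξ η : Bun T} (e : ξ.Iso η) : η.Iso ξ := by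
  obtain ⟨u, v, h⟩ := e
  exact ⟨v, u, fun x => (h x).symm⟩

theorem iso_trans {ξ η ζ : Bun T} (e : ξ.Iso η) (e' : η.Iso ζ) : ξ.Iso ζ := by
  obtain ⟨u, v, h⟩ := e
  obtain ⟨u', v', h'⟩ := e'
  refine ⟨⟨fun x => u' x ∘L u x, u'.continuous.clm_comp u.continuous⟩,
    ⟨fun x => v x ∘L v' x, v.continuous.clm_comp v'.continuous⟩, fun x => ⟨?_, ?_⟩⟩
  · show (v x ∘L v' x) ∘L u' x ∘L u x = _
    rw [ContinuousLinearMap.comp_assoc, ← ContinuousLinearMap.comp_assoc (v' x), (h' x).1,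
      ← (h x).2, ContinuousLinearMap.comp_assoc, ← ContinuousLinearMap.comp_assoc, (h x).1, ξ.idem]
  · show (u' x ∘L u x) ∘L v x ∘L v' x = _
    rw [ContinuousLinearMap.comp_assoc, ← ContinuousLinearMap.comp_assoc (u x), (h x).2,
      ← (h' x).1, ContinuousLinearMap.comp_assoc, ← ContinuousLinearMap.comp_assoc, (h' x).2,
      ζ.idem]

theorem iso_pull {ξ η : Bun T} (e : ξ.Iso η) (φ : C(T', T)) : (ξ.pull φ).Iso (η.pull φ) := by
  obtain ⟨u, v, h⟩ := e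
  exact ⟨u.comp φ, v.comp φ, fun x => h (φ x)⟩

theorem iso_sum {ξ η ξ' η' : Bun T} (e : ξ.Iso η) (e' : ξ'.Iso η') : (ξ.sum ξ').Iso (η.sum η') := by
  obtain ⟨u, v, h⟩ := e
  obtain ⟨u', v', h'⟩ := e'
  refine ⟨⟨fun x => (u x).prodMap (u' x), (ContinuousLinearMap.prodMapL ℂ _ _ _ _).continuous.comp
      (u.continuous.prodMk u'.continuous)⟩,
    ⟨fun x => (v x).prodMap (v' x), (ContinuousLinearMap.prodMapL ℂ _ _ _ _).continuous.comp
      (v.continuous.prodMk v'.continuous)⟩, fun x => ⟨?_, ?_⟩⟩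
  · exact ContinuousLinearMap.ext fun w => Prod.ext
      (congrArg (fun q : ξ.W →L[ℂ] ξ.W => q w.1) (h x).1)
      (congrArg (fun q : ξ'.W →L[ℂ] ξ'.W => q w.2) (h' x).1)
  · exact ContinuousLinearMap.ext fun w => Prod.ext
      (congrArg (fun q : η.W →L[ℂ] η.W => q w.1) (h x).2)
      (congrArg (fun q : η'.W →L[ℂ] η'.W => q w.2) (h' x).2)

/-- The space of bounded isomorphisms between fibres. -/
def IsoSp (η : Bun K) (η' : Bun K') (R : ℝ) : Type :=
  {w : (K × K') × (η.W →L[ℂ] η'.W) × (η'.W →L[ℂ] η.W) //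
    (‖w.2.1‖ ≤ R ∧ ‖w.2.2‖ ≤ R) ∧ w.2.2 ∘L w.2.1 = η.p w.1.1 ∧ w.2.1 ∘L w.2.2 = η'.p w.1.2}

instance (η : Bun K) (η' : Bun K') (R : ℝ) : TopologicalSpace (IsoSp η η' R) :=
  instTopologicalSpaceSubtype

instance [T2Space K] [T2Space K'] (η : Bun K) (η' : Bun K') (R : ℝ) : T2Space (IsoSp η η' R) :=
  inferInstanceAs (T2Space (Subtype _))

instance [CompactSpace K] [CompactSpace K'] (η : Bun K) (η' : Bun K') (R : ℝ) :
    CompactSpace (IsoSp η η' R) := by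
  have := FiniteDimensional.proper ℂ (η.W →L[ℂ] η'.W)
  have := FiniteDimensional.proper ℂ (η'.W →L[ℂ] η.W)
  have h1 := (isCompact_univ (X := K × K')).prod
    ((isCompact_closedBall (0 : η.W →L[ℂ] η'.W) R).prod
      (isCompact_closedBall (0 : η'.W →L[ℂ] η.W) R))
  refine isCompact_iff_compactSpace.1 (h1.of_isClosed_subset ?_ fun w hw => ?_ :
    IsCompact {w : (K × K') × (η.W →L[ℂ] η'.W) × (η'.W →L[ℂ] η.W) | _})
  · exact ((isClosed_le continuous_snd.fst.norm continuous_const).inter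
      (isClosed_le continuous_snd.snd.norm continuous_const)).inter
      ((isClosed_eq (continuous_snd.snd.clm_comp continuous_snd.fst)
        (η.p.continuous.comp continuous_fst.fst)).inter
        (isClosed_eq (continuous_snd.fst.clm_comp continuous_snd.snd)
          (η'.p.continuous.comp continuous_fst.snd)))
  · exact ⟨trivial, mem_closedBall_zero_iff.2 hw.1.1, mem_closedBall_zero_iff.2 hw.1.2⟩

variable [C : Fact Core]

theorem iso_act (A : Api) {cb : CbT} (hc : IsCbF cb) [CompactSpace K] [T2Space K] [CompactSpace K']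
    [T2Space K'] {f : C(T, K)} {f' : C(T, K')} {η : Bun K} {η' : Bun K'}
    (e : (η.pull f).Iso (η'.pull f')) (α : ℕ →₀ ℕ) (y : h T) :
    act f ((cb η).coeff α) y = act f' ((cb η').coeff α) y := by
  obtain ⟨u, v, huv⟩ := e
  induction y using h_ind with | _ c hg => ?_
  have c1 : Continuous fun t => max ‖u t‖ ‖v t‖ := by fun_prop
  obtain ⟨R, hR⟩ := (hg.cpt.image (c1.comp continuous_fst)).bddAbove
  let G : Set T := {t | max ‖u t‖ ‖v t‖ < R + 1}
  have hG : IsOpen G := isOpen_lt c1 continuous_const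
  let j : C(G, T) := ⟨Subtype.val, continuous_subtype_val⟩
  have h1 := A.fn.push_res j c hG.isOpenEmbedding_subtypeVal hg fun z hz =>
    ⟨⟨z.1, (hR ⟨z, hz, rfl⟩).trans_lt (lt_add_one R)⟩, rfl⟩
  let g : C(G, IsoSp η η' (R + 1)) := ⟨fun t => ⟨((f t, f' t), u t, v t),
    ⟨((le_max_left _ _).trans_lt t.2).le, ((le_max_right _ _).trans_lt t.2).le⟩, huv t⟩,
    Continuous.subtype_mk (by fun_prop) _⟩
  let π : C(IsoSp η η' (R + 1), K) := ⟨fun w => w.1.1.1, continuous_subtype_val.fst.fst⟩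
  let π' : C(IsoSp η η' (R + 1), K') := ⟨fun w => w.1.1.2, continuous_subtype_val.fst.snd⟩
  have h2 : (η.pull π).Iso (η'.pull π') := ⟨⟨fun w => w.1.2.1, continuous_subtype_val.snd.fst⟩,
    ⟨fun w => w.1.2.2, continuous_subtype_val.snd.snd⟩, fun w => w.2.2⟩
  have h3 : pullR π ((cb η).coeff α) = pullR π' ((cb η').coeff α) := by
    rw [← MvPolynomial.coeff_map, ← MvPolynomial.coeff_map, hc.nat, hc.nat, hc.iso _ _ h2]
  rw [← h1, ← (A.act.push f j _).1, ← (A.act.push f' j _).1,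
    show f.comp j = π.comp g from rfl, show f'.comp j = π'.comp g from rfl,
    ← (A.act.base g π _).1, ← (A.act.base g π' _).1, h3]

/-- The type of multiplication operators. -/
abbrev MT : Type 1 := ∀ {T : Type} [TopologicalSpace T], Bun T → (ℕ →₀ ℕ) → h T →+ h T

/-- The properties of the multiplication operators. -/
structure IsM (cb : CbT) (M : MT) : Prop where
  eq : ∀ {T K : Type} [TopologicalSpace T] [TopologicalSpace K] [CompactSpace K] [T2Space K]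
    (ξ : Bun T) (f : C(T, K)) (η : Bun K), ξ.Iso (η.pull f) →
    ∀ α y, M ξ α y = act f ((cb η).coeff α) y
  cl : S_Cl

theorem exists_M (A : Api) (cl : S_Cl) {cb : CbT} (hc : IsCbF cb) : ∃ M : MT, IsM cb M := by
  have : ∀ (T : Type) (_ : TopologicalSpace T) (ξ : Bun T), ∃ m : (ℕ →₀ ℕ) → h T →+ h T,
      ∀ {K : Type} [TopologicalSpace K] [CompactSpace K] [T2Space K] (f : C(T, K)) (η : Bun K),
        ξ.Iso (η.pull f) → ∀ α y, m α y = act f ((cb η).coeff α) y := fun T _ ξ => by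
    obtain ⟨K, _, _, _, f, η, e⟩ := cl ξ
    exact ⟨fun α => act f ((cb η).coeff α), fun f' η' e' α y =>
      iso_act A hc (iso_trans (iso_symm e) e') α y⟩
  choose M hM using this
  exact ⟨fun {T} t => M T t, fun ξ f η => hM _ _ ξ f η, cl⟩

namespace IsM

variable {cb : CbT} {M : MT} (m : IsM cb M)
include m

theorem iso {ξ η : Bun T} (e : ξ.Iso η) (α : ℕ →₀ ℕ) (y : h T) : M ξ α y = M η α y := by
  obtain ⟨K, _, _, _, f, ζ, e'⟩ := m.cl η
  rw [m.eq η f ζ e', m.eq ξ f ζ (iso_trans e e')]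

theorem pull (A : Api) (ξ : Bun T) (φ : C(T', T)) (α : ℕ →₀ ℕ) (y : h T) :
    MU.pull φ (M ξ α y) = M (ξ.pull φ) α (MU.pull φ y) := by
  obtain ⟨K, _, _, _, f, ζ, e⟩ := m.cl ξ
  rw [m.eq ξ f ζ e, m.eq _ (f.comp φ) ζ (iso_pull e φ), (A.act.pull f φ _).1]

theorem push (A : Api) (ξ : Bun T) (j : C(T', T)) (α : ℕ →₀ ℕ) (y : h T') :
    MU.push j (M (ξ.pull j) α y) = M ξ α (MU.push j y) := by
  obtain ⟨K, _, _, _, f, ζ, e⟩ := m.cl ξ
  rw [m.eq ξ f ζ e, m.eq _ (f.comp j) ζ (iso_pull e j), (A.act.push f j _).1]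

theorem twist (A : Api) (ξ : Bun T) (g : C(T', T)) (η : Bun T') (σ : C(T', η.W)) (α : ℕ →₀ ℕ)
    (y : h T) : MU.twist g η σ (M ξ α y) = M (ξ.pull g) α (MU.twist g η σ y) := by
  obtain ⟨K, _, _, _, f, ζ, e⟩ := m.cl ξ
  rw [m.eq ξ f ζ e, m.eq _ (f.comp g) ζ (iso_pull e g), (A.act.twist f g η σ _).1]

theorem sum (hc : IsCbF cb) (ξ η : Bun T) (α : ℕ →₀ ℕ) (y : h T) :
    M (ξ.sum η) α y = ∑ q ∈ Finset.HasAntidiagonal.antidiagonal α, M ξ q.1 (M η q.2 y) := by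
  classical
  obtain ⟨K, _, _, _, f, a, e⟩ := m.cl ξ
  obtain ⟨K', _, _, _, f', b, e'⟩ := m.cl η
  rw [m.eq _ (f.prodMk f') ((a.pull ContinuousMap.fst).sum (b.pull ContinuousMap.snd))
    (iso_sum e e'), hc.sum, MvPolynomial.coeff_mul, map_sum]
  refine (AddMonoidHom.finsetSum_apply _ _ _).trans (Finset.sum_congr rfl fun q _ => ?_)
  rw [map_mul, m.eq ξ (f.prodMk f') (a.pull ContinuousMap.fst) e,
    m.eq η (f.prodMk f') (b.pull ContinuousMap.snd) e']
  rfl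

theorem triv (hc : IsCbF cb) (E : FD) (α : ℕ →₀ ℕ) (y : h T) :
    M (Bun.triv T E) α y = if α = 0 then y else 0 := by
  classical
  rw [m.eq (Bun.triv T E) (toPt T) (Bun.triv Unit E) (iso_refl _), hc.triv, MvPolynomial.coeff_one]
  by_cases e : α = 0
  · rw [if_pos e.symm, if_pos e, map_one]
    rfl
  · rw [if_neg (Ne.symm e), if_neg e, map_zero]
    rfl

theorem sum_triv (hc : IsCbF cb) (ξ : Bun T) (E : FD) (α : ℕ →₀ ℕ) (y : h T) :
    M (ξ.sum (Bun.triv T E)) α y = M ξ α y := by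
  classical
  obtain ⟨K, _, _, _, f, a, e⟩ := m.cl ξ
  rw [m.eq _ f (a.sum (Bun.triv K E)) (iso_sum e (iso_refl _)), hc.sum, hc.triv, mul_one,
    m.eq ξ f a e]

theorem prod_left {X Y : Type} [TopologicalSpace X] [TopologicalSpace Y] (ξ : Bun T) {f : C(X, T)}
    {g : C(X, Y)} (hp : Pr f g) (α : ℕ →₀ ℕ) (a : h T) (y : h Y) :
    prod f g (M ξ α a) y = M (ξ.pull f) α (prod f g a y) := by
  obtain ⟨K, _, _, _, φ, ζ, e⟩ := m.cl ξ
  rw [m.eq ξ φ ζ e, m.eq _ (φ.comp f) ζ (iso_pull e f), act_def, act_def, MU.prod_eq hp,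
    MU.prod_eq hp, MU.prod_eq (pr_id _), MU.prod_eq (pr_id _)]
  exact C.out.laws.assoc f φ (ContinuousMap.id T) (ContinuousMap.id X) f g (φ.comp f) g
    (fun _ => rfl) (fun _ => rfl) (fun _ => rfl) hp (pr_id φ) (pr_id _) hp _ a y

theorem deg (A : Api) (hc : IsCbF cb) (ξ : Bun T) (α : ℕ →₀ ℕ) {e : ℤ} {y : h T}
    (hy : IsDeg e y) : IsDeg (e + (Finsupp.weight (fun n => n + 1) α : ℕ)) (M ξ α y) := by
  obtain ⟨K, _, _, _, φ, ζ, e'⟩ := m.cl ξ
  rw [m.eq ξ φ ζ e', IsDeg, add_comm, act_def, A.deg.prod _ _ _ _ _ (hc.deg ζ α), hy]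

theorem fin (ξ : Bun T) : ∃ S : Finset (ℕ →₀ ℕ), ∀ α ∉ S, ∀ y, M ξ α y = 0 := by
  obtain ⟨K, _, _, _, φ, ζ, e⟩ := m.cl ξ
  refine ⟨(cb ζ).support, fun α hα y => ?_⟩
  rw [m.eq ξ φ ζ e, MvPolynomial.notMem_support_iff.1 hα, map_zero]
  rfl

end IsM

end

end Pool.Agent.MP_826def_gt.BL
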