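import Pool.Agent.MP_826def_gt.MU.Spec

/-! Statements of the steps in the construction of the total Landweber-Novikov operation. -/

namespace Pool.Agent.MP_826def_gt.BL

open Set Topology Pool.Agent.MP_826def_gt.MU

noncomputable section

/-- Every bundle is pulled back from a compact space. -/
def S_Cl : Prop :=
  ∀ {T : Type} [TopologicalSpace T] (ξ : Bun T), ∃ (K : Type) (_ : TopologicalSpace K)
    (_ : CompactSpace K) (_ : T2Space K) (f : C(T, K)) (η : Bun K), ξ.Iso (η.pull f)

/-- The inclusion of a level set. -/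
abbrev inc {K : Type} [TopologicalSpace K] (ρ : K → ℕ) (k : ℕ) : C({y // ρ y = k}, K) :=
  ⟨Subtype.val, continuous_subtype_val⟩

variable [Fact Core]

/-- Classes on a compact space are determined by, and glued from, the level sets of a locally
constant function. -/
def S_Clopen : Prop :=
  ∀ {K : Type} [TopologicalSpace K] [CompactSpace K] [T2Space K] (ρ : K → ℕ),
    IsLocallyConstant ρ → (∀ x : h K, (∀ k, pull (inc ρ k) x = 0) → x = 0) ∧
      ∀ x : ∀ k, h {y // ρ y = k}, ∃ y : h K, ∀ k, pull (inc ρ k) y = x k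

/-- `c` becomes the product of the classes of the line bundles wherever `ξ` splits. -/
def IsCb {K : Type} [TopologicalSpace K] [CompactSpace K] [T2Space K] (ξ : Bun K)
    (c : MvPolynomial ℕ (h K)) : Prop :=
  ∀ (K' : Type) [TopologicalSpace K'] [CompactSpace K'] [T2Space K'] (f : C(K', K)) (k : ℕ)
    (L : Fin k → Bun K'), (∀ i, (L i).Rk 1) → (ξ.pull f).Split L →
    MvPolynomial.map (pullR f) c = ∏ i, bq (eu (L i))

/-- Existence in constant rank. -/
def S_Cb0 : Prop :=
  ∀ {K : Type} [TopologicalSpace K] [CompactSpace K] [T2Space K] (ξ : Bun K) (k : ℕ), ξ.Rk k →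
    ∃ c, IsCb ξ c

/-- Existence and the splitting principle in any rank. -/
def S_Cb1 : Prop :=
  ∀ {K : Type} [TopologicalSpace K] [CompactSpace K] [T2Space K] (ξ : Bun K), (∃ c, IsCb ξ c) ∧
    ∀ x : h K, (∀ (K' : Type) [TopologicalSpace K'] [CompactSpace K'] [T2Space K'] (f : C(K', K))
      (k : ℕ) (L : Fin k → Bun K'), (∀ i, (L i).Rk 1) → (ξ.pull f).Split L → pullR f x = 0) → x = 0

/-- The type of total characteristic classes. -/
abbrev CbT : Type 1 :=
  ∀ {K : Type} [TopologicalSpace K] [CompactSpace K] [T2Space K], Bun K → MvPolynomial ℕ (h K)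

structure IsCbF (cb : CbT) : Prop where
  nat : ∀ {K K' : Type} [TopologicalSpace K] [CompactSpace K] [T2Space K] [TopologicalSpace K']
    [CompactSpace K'] [T2Space K'] (ξ : Bun K) (f : C(K', K)),
    MvPolynomial.map (pullR f) (cb ξ) = cb (ξ.pull f)
  iso : ∀ {K : Type} [TopologicalSpace K] [CompactSpace K] [T2Space K] (ξ η : Bun K), ξ.Iso η →
    cb ξ = cb η
  sum : ∀ {K : Type} [TopologicalSpace K] [CompactSpace K] [T2Space K] (ξ η : Bun K),
    cb (ξ.sum η) = cb ξ * cb η
  triv : ∀ (K : Type) [TopologicalSpace K] [CompactSpace K] [T2Space K] (E : FD),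
    cb (Bun.triv K E) = 1
  line : ∀ {K : Type} [TopologicalSpace K] [CompactSpace K] [T2Space K] (L : Bun K), L.Rk 1 →
    cb L = bq (eu L)
  deg : ∀ {K : Type} [TopologicalSpace K] [CompactSpace K] [T2Space K] (ξ : Bun K) (α : ℕ →₀ ℕ),
    IsDeg (Finsupp.weight (fun n => n + 1) α : ℕ) ((cb ξ).coeff α)

def S_Cb : Prop := ∃ cb : CbT, IsCbF cb

end

end Pool.Agent.MP_826def_gt.BL
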